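import Pool.Agent.Q278.WR8

set_option autoImplicit false

/-! The sum with factor `[8k-1]` modulo `[n]` and `[n] Φ_n(q)²`. -/

namespace Pool.Agent.Results.MP_97831a_nt.Full

open Finset Polynomial Q278.Cyc Q278.Loc Q278.Unit Q278.Blk Q278.WR

/-- `[m] = (1 - q^m) / (1 - q)` for an integer `m`, with `q = RatFunc.X`. -/
noncomputable def qint (m : ℤ) : RatFunc ℚ := (1 - RatFunc.X ^ m) / (1 - RatFunc.X)

/-- `(x; y)_k = (1 - x)(1 - x y) ⋯ (1 - x y^(k-1))`. -/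
noncomputable def qp (x y : RatFunc ℚ) (k : ℕ) : RatFunc ℚ := ∏ l ∈ range k, (1 - x * y ^ l)

/-- `A_k(q) = (q⁻¹;q⁴)_k / (q⁴;q⁴)_k`. -/
noncomputable def Ak (k : ℕ) : RatFunc ℚ :=
  qp (RatFunc.X)⁻¹ (RatFunc.X ^ 4) k / qp (RatFunc.X ^ 4) (RatFunc.X ^ 4) k

/-- `B_k(q) = (q²;q²)_{2k} / (q⁻¹;q²)_{2k}`. -/
noncomputable def Bq (k : ℕ) : RatFunc ℚ :=
  qp (RatFunc.X ^ 2) (RatFunc.X ^ 2) (2 * k) / qp (RatFunc.X)⁻¹ (RatFunc.X ^ 2) (2 * k)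

/-- The sum `S_n(q) = ∑_{k<n} [8k-1] A_k(q)⁶ B_k(q) q^(8k)`. -/
noncomputable def S (n : ℕ) : RatFunc ℚ :=
  ∑ k ∈ range n, qint (8 * (k : ℤ) - 1) * Ak k ^ 6 * Bq k * RatFunc.X ^ (8 * k)

/-- The polynomial `[n] = 1 + q + ⋯ + q^(n-1)`. -/
noncomputable def qintP (n : ℕ) : ℚ[X] := ∑ i ∈ range n, X ^ i

/-- `R ≡ 0 (mod P)`: in lowest terms `P` divides the numerator and is coprime to the
denominator. -/
def ModZero (P : ℚ[X]) (R : RatFunc ℚ) : Prop :=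
  P ∣ RatFunc.num R ∧ IsCoprime P (RatFunc.denom R)

theorem S_eq (n : ℕ) : (1 - q) * S n = ∑ k ∈ range n, Bk (-1) 2 0 k := by
  unfold S
  rw [mul_sum]
  apply sum_congr rfl
  intro k _
  have h1 : (1 : RatFunc ℚ) - q ≠ 0 := by
    have := one_sub_q_ne one_pos
    rwa [pow_one] at this
  have e1 : qp (RatFunc.X)⁻¹ (RatFunc.X ^ 4) k = A (-1) k := by
    rw [← A_eq, zpow_neg_one]; rfl
  have e2 : qp (RatFunc.X ^ 4) (RatFunc.X ^ 4) k = A 4 k := by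
    rw [← A_eq]; rfl
  have e3 : qp (RatFunc.X ^ 2) (RatFunc.X ^ 2) (2 * k) = A 2 k * A 4 k := by
    have := A_eq2 2 k
    rw [show (2 : ℤ) + 2 = 4 by norm_num] at this
    rw [← this]; rfl
  have e4 : qp (RatFunc.X)⁻¹ (RatFunc.X ^ 2) (2 * k) = A (-1) k * A 1 k := by
    have := A_eq2 (-1) k
    rw [show (-1 : ℤ) + 2 = 1 by norm_num, zpow_neg_one] at this
    rw [← this]; rfl
  have e5 : (1 - q) * qint (8 * (k : ℤ) - 1) = 1 - q ^ (8 * (k : ℤ) - 1) := by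
    unfold qint
    exact mul_div_cancel₀ _ h1
  have e6 : (q : RatFunc ℚ) ^ ((-1 : ℤ) + 2 * 0 + 8 * (k : ℤ)) = q ^ (8 * (k : ℤ) - 1) := by
    rw [show (-1 : ℤ) + 2 * 0 + 8 * (k : ℤ) = 8 * (k : ℤ) - 1 by ring]
  have n1 : A 1 k ≠ 0 := A_ne (fun l => by omega) k
  have n2 : A (-1) k ≠ 0 := A_ne (fun l => by omega) k
  have n4 : A 4 k ≠ 0 := A_ne (fun l => by omega) k
  have e7 : (RatFunc.X : RatFunc ℚ) ^ (8 * k) = ((q ^ 4) ^ 2) ^ k := by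
    rw [← pow_mul, ← pow_mul]
    congr 1; ring
  unfold Ak Bq Bk F
  rw [e1, e2, e3, e4, e6, e7]
  have e8 : (1 - q) * (qint (8 * (k : ℤ) - 1) * (A (-1) k / A 4 k) ^ 6 *
      (A 2 k * A 4 k / (A (-1) k * A 1 k)) * ((q ^ 4) ^ 2) ^ k) =
      ((1 - q) * qint (8 * (k : ℤ) - 1)) * ((A (-1) k / A 4 k) ^ 6 *
      (A 2 k * A 4 k / (A (-1) k * A 1 k)) * ((q ^ 4) ^ 2) ^ k) := by ring
  rw [e8, e5]
  norm_num
  field_simp

/-- For every odd `n > 1`: `S_n ≡ 0` modulo `[n] Φ_n(q)²` if `n ≡ 1 (mod 4)`, and modulo `[n]` if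
`n ≡ 3 (mod 4)`. -/
theorem result (n : ℕ) (hn : Odd n) (h1 : 1 < n) :
    (n % 4 = 1 → ModZero (qintP n * cyclotomic n ℚ ^ 2) (S n)) ∧
    (n % 4 = 3 → ModZero (qintP n) (S n)) := by
  refine ⟨fun h => ?_, fun _ => ?_⟩
  · exact fin_three h1 (Or.inr rfl) (by norm_num) (by omega) (S_eq n)
  · exact fin_one (Nat.odd_iff.1 hn) (Or.inr rfl) (by norm_num) (S_eq n)

end Pool.Agent.Results.MP_97831a_nt.Full
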